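import Mathlib
import Pool.Agent.Helper43.Gem.Final

/-!
# Crystallizations with few vertices give discrete gradients with few critical edges

A crystallization of a closed PL 4-manifold `M` is a 5-coloured graph `Γ` whose coloured
triangulation `|K(Γ)|` is PL homeomorphic to `M` and which is contracted (deleting any one colour
leaves a connected graph).  We prove: if `H^1(M; Z/2) = 0` (for instance `M` simply connected) and
`Γ` has at most `6 χ(M) + 20 c + 24` vertices, or regular genus at most `2 χ(M) + 5 c + 3` with
respect to some cyclic ordering of the colours, then the barycentric subdivision of `|K(Γ)|` has a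
discrete gradient with exactly one critical vertex and at most `c` critical edges.

By the theorem of Gallais and Benedetti a discrete gradient on a PL triangulation of a closed
manifold yields a handle decomposition with the same numbers of handles, so `M` then has a handle
decomposition with at most `c` handles of index one; for `c = 0` there are none.
-/

set_option autoImplicit false

namespace Pool.Agent.Results.MP_f18604_gt.CrystallizationOneHandles

open Pool.MP_f18604_gt.Gem

theorem result {V : Type} [Finite V] [Nonempty V] (Γ : ColoredGraph V) (hΓ : Γ.Contracted)
    (hS : Γ.Spherical) (hZ : Γ.Z2Acyclic) (c : ℕ)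
    (h : (Nat.card V : ℤ) ≤ 6 * Γ.euler + 20 * c + 24 ∨
      ∃ ε : Equiv.Perm (Fin 5), -(4 * Γ.euler + 10 * c + 4) ≤ Γ.regEuler ε) :
    ∃ D : DiscreteGradient Γ.bary, (∃! σ, D.Critical σ ∧ σ.card = 1) ∧
      {σ | D.Critical σ ∧ σ.card = 2}.ncard ≤ c :=
  ColoredGraph.few_edges hΓ hS hZ c h

end Pool.Agent.Results.MP_f18604_gt.CrystallizationOneHandles
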