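import Mathlib
import Pool.Agent.Helper7.LSN.SeedMain

/-!
# Link surgery manifolds with few 1-handles

For a link `L` in the 3-sphere with components `L_1, ..., L_r` and `n_1, ..., n_r ≥ 1` Fintushel and Stern
(Knots, links, and 4-manifolds) defined the closed simply connected 4-manifold `E(n_1, ..., n_r)_L`: the product of the circle
and the exterior of `L`, glued along its `i`-th boundary torus to the complement of a regular fibre of the
elliptic surface `E(n_i)`.  For a knot this is the knot surgery manifold `E(n)_K`.  The Seiberg-Witten invariant is
essentially the (multivariable) Alexander polynomial of `L`, so there are infinitely many smooth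
structures on the same topological manifold.  If `L` is the torus link `T(np, nq)`, `p` and `q` coprime, and all `n_i = 1`, one
gets the elliptic surface `E(n)_(p,q)` with two multiple fibres.

`Grid ι N` is a grid diagram of a link whose components have the labels `ι`.  `Diagram M` is a grid diagram of a link with a set of columns with a node, a multiple
of 12 on every component (and an even number of columns on every component).  The file `Cells.lean` describes an explicit finite regular
cell complex `X(D)` with its geometric meaning: if there are `12 n_i` nodes on `L_i`, it is a cell structure on `E(n_1, ..., n_r)_L`, where the elliptic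
pieces are Lefschetz fibrations with one nodal fibre for every node.  (That `X(D)` is this manifold is not proved in Lean.  By computer we
have checked for examples that all closed cells and all links are spheres, and that the intersection form of a knot with 12
nodes is unimodular and odd, of rank 10 and signature 8 up to orientation.)

The theorem: let `G` be a grid diagram of a link whose rows are all coloured by the seed rows `S` (the rule of the Wirtinger number
of Blair, Kjuchukova, Velazquez and Villanueva, who prove that it equals the bridge number), with `s_i` seeds on the component `i`, let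
`n_i ≥ 1`, and choose one component `i_0`.  Then `G` has a stabilisation `H` (this does not change the link) which carries a
diagram `D` with `12 n_i` nodes on every component `i`, such that
* `X(D)` is a finite closed thin pure complex of dimension 4: every edge has two ends, every interval of length two in the
  face poset has exactly two cells between its ends, every 3-cell is a facet of exactly two 4-cells; and its Euler characteristic is
  `12 ∑ n_i`;
* `X(D)` has a discrete gradient with exactly one critical vertex and at most `∑ max(0, s_i - t_i)` critical edges, where
  `t_i = 12 n_i` for `i ≠ i_0` and `t_i = 12 n_i - 1` for `i = i_0`.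

By Forman, Gallais and Benedetti the manifold then has a handle decomposition with one 0-handle and at
most so many 1-handles.  So for every link with `b_i ≤ 12 n_i` overbridges on `L_i`, and `b_i < 12 n_i` for one `i`, the manifold
`E(n_1, ..., n_r)_L` has a handle decomposition without 1-handles; for example `E(n)_K` for all knots with bridge number less than `12 n`, and
all elliptic surfaces `E(n)_(p,q)` with `min(p,q) ≤ 11`: the standard grid diagram of `T(np, nq)` is coloured by `n p` rows, `p` of them on
each of the `n` components (`torus_grid` in `TorusGrid.lean`).  (For knots Monden and Yabuguchi have shown that there are no 1-handles if `b(K) ≤ 9 n`.)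
-/

set_option autoImplicit false

namespace Pool.Agent.Results.MP_f18604_gt.LefschetzSurgery

open Pool.MP_f18604_gt.LS (ClosedThin Gradient)
open Pool.MP_f18604_gt.LSN

theorem result (ι : Type) [DecidableEq ι] (N : ℕ) (G : Grid ι N) (S : Finset (Fin N))
    (_ : ∀ k, G.Coloured S k) (n : ι → ℕ) (_ : ∀ l, 0 < n (G.lab l)) (l0 : Fin N) :
    ∃ (M : ℕ) (H : Grid ι M) (D : Diagram M), Stab G M H ∧ D.sig = H.sig ∧ D.tau = H.tau ∧
      (∀ m, ∃ l, H.lab m = G.lab l) ∧
      (∀ l, (Finset.univ.filter fun m => D.node m = true ∧ H.lab m = G.lab l).card =
        12 * n (G.lab l)) ∧
      Finite (XCell D) ∧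
      ClosedThin (XCell.facets (D := D)) XCell.dim ∧
      ∑ i ∈ Finset.range 5, (-1 : ℤ) ^ i * Nat.card {x : XCell D // x.dim = i} =
        12 * ∑ i ∈ Finset.univ.image G.lab, (n i : ℤ) ∧
      ∃ V : Gradient (XCell.facets (D := D)), (∃! a, V.Critical a ∧ a.dim = 0) ∧
        {a | V.Critical a ∧ a.dim = 1}.ncard ≤ ∑ i ∈ Finset.univ.image G.lab,
          ((S.filter fun k => G.lab (G.sig.symm k) = i).card -
            (12 * n i - if i = G.lab l0 then 1 else 0)) := by
  rename_i hS hn
  obtain ⟨M, H, D, h1, h2, h3, h4, h5, V, h6, h7⟩ := seed_main G S hS n hn l0
  refine ⟨M, H, D, h1, h2, h3, h4, h5, Finite.of_fintype _, closedThin, ?_, V, h6, h7⟩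
  rw [euler_card]
  have h8 : Fintype.card {m // D.node m = true} = ∑ i ∈ Finset.univ.image G.lab, 12 * n i := by
    rw [Fintype.card_subtype, Finset.card_eq_sum_card_fiberwise (f := H.lab)
      (t := Finset.univ.image G.lab)]
    · refine Finset.sum_congr rfl fun i hi => ?_
      obtain ⟨l, -, rfl⟩ := Finset.mem_image.1 hi
      rw [← h5 l]
      congr 1
      ext m
      simp
    · intro m _
      obtain ⟨l, hl⟩ := h4 m
      rw [hl]
      exact Finset.mem_coe.2 (Finset.mem_image_of_mem _ (Finset.mem_univ l))
  rw [h8]
  push_cast
  rw [Finset.mul_sum]

end Pool.Agent.Results.MP_f18604_gt.LefschetzSurgery
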