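import Mathlib
import Pool.Agent.Helper55.Cox.Simply
import Pool.Agent.Helper55.Cox.Betti

/-!
# Reflection manifolds have as few 1-handles as their homology allows

`(W, S)` is a finite Coxeter system, `K` a simplicial complex with vertex set `S`, and `reflComplex K = U(W, K)`
the simplicial complex of all chains of cosets `w W_T` with `T ∈ K` or `T = ∅` (Vinberg, Davis).

If `K` is a triangulation of the 3-sphere as a PL manifold then `U(W, K)` triangulates a closed PL
4-manifold `M`, the reflection manifold of `(W, K)`: the group `W` acts on `M` as a group generated by
reflections, and the chambers are 4-balls whose faces are dual to `K` (simple polytopes if `K` is polytopal). For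
`W = (Z/2)^m` these are the real moment-angle manifolds.

We prove: `b = dim H^1(U(W, K); Z/2)` (`HasBetti`) is the sum over all `w ∈ W` of the number of components of the
graph of `K` on the right descents of `w`, minus one (and `0` for `w = 1`); `U(W, K)` has a discrete gradient with exactly one
critical vertex and exactly `b` critical edges, the smallest possible number; and `b = 0` if and only if
`U(W, K)` is simply connected, if and only if any two elements of `S` lie in a common simplex of `K`.

By the theorem of Gallais and Benedetti a discrete gradient on a PL triangulation of a closed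
manifold yields a handle decomposition with the same numbers of handles. So every reflection manifold of
dimension four has a handle decomposition with `b` 1-handles, and those which are simply connected have one
without 1-handles.
-/

set_option autoImplicit false

namespace Pool.Agent.Results.MP_f18604_gt.ReflectionManifolds

open Pool.MP_f18604_gt.Gem Pool.MP_f18604_gt.Cox

theorem result {B W : Type} [Group W] [Fintype W] {M : CoxeterMatrix B}
    (cs : CoxeterSystem M W) {K : Set (Finset W)} (hK : IsComplexOn cs K) :
    ∃ b : ℕ, b = ∑ w, (descComp cs K w - 1) ∧ HasBetti (reflComplex K) b ∧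
      (∃ D : DiscreteGradient (reflComplex K), (∃! σ, D.Critical σ ∧ σ.card = 1) ∧
        {σ | D.Critical σ ∧ σ.card = 2}.ncard = b) ∧
      (b = 0 ↔ SimplyConn (reflComplex K)) ∧
      (b = 0 ↔ ∀ i j, ∃ T ∈ K, cs.simple i ∈ T ∧ cs.simple j ∈ T) := by
  classical
  have hb := betti_eq hK
  have h0 := sum_zero_iff hK
  refine ⟨_, rfl, hb, ?_, ⟨fun h => simplyConn hK (h0.1 h), fun h => betti_of_simplyConn h hb⟩, h0⟩
  obtain ⟨D, h1, h2⟩ := exists_main hK
  exact ⟨D, unique_vertex hK h1, count_edges hK h2⟩

end Pool.Agent.Results.MP_f18604_gt.ReflectionManifolds
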