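import Mathlib
import Pool.Agent.Helper47.KF.Final

/-!
# Triangulated 4-manifolds with small `g_2` have discrete gradients with few critical edges

`K` is a triangulated closed connected 4-manifold, or more generally a closed normal
pseudomanifold of dimension 4, with `f_i` simplices of dimension `i` and `n = f_0` vertices. For a
vertex `v` let `m_v` be the number of its neighbours and `e_v` the number of missing edges of its
link. We prove that `K` has a discrete gradient with exactly one critical vertex and `c` critical
edges, where

* `c ≤ 1 + ∑_v (e_v - 15) / (15 (m_v + 1))`;
* hence `15 c ≤ g_2 = f_1 - 5 f_0 + 15`;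
* and `5 n c ≤ C(n-4, 3) - 10 (χ - 2)` if the links of all edges have Euler characteristic 2
  (always the case for manifolds), `χ` being the Euler characteristic of `K`.

The last inequality refines Kühnel's inequality `10 (χ - 2) ≤ C(n-4, 3)`.

By the theorem of Gallais and Benedetti a discrete gradient on a PL triangulation of a closed
manifold `M` yields a handle decomposition with the same numbers of handles. So a closed
4-manifold with a triangulation with `g_2 < 15`, or with at most 12 vertices, or with
`C(n-4, 3) - 10 (χ - 2) < 5 n`, has a handle decomposition without 1-handles if it is simply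
connected (`χ ≥ 2`).

The proof takes a random ordering of the vertices. The expected number of components of the
lower part of the link of `v` is estimated by means of a new linear upper bound for the linear
strand of the Stanley-Reisner ideal of the link, which rests on the generic rigidity in
dimension 4 of minimal cycles of dimension 3 (Fogelsanger), also proved here.
-/

set_option autoImplicit false

namespace Pool.Agent.Results.MP_f18604_gt.SimplicialOneHandles

open Pool.MP_f18604_gt.Gem Pool.MP_f18604_gt.KF

theorem result {α : Type} [Fintype α] [DecidableEq α] [Nonempty α] {K : Finset (Finset α)}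
    (hK : NormalPseudomanifold K) :
    ∃ D : DiscreteGradient (K : Set (Finset α)), (∃! σ, D.Critical σ ∧ σ.card = 1) ∧
      ∃ c : ℕ, {σ | D.Critical σ ∧ σ.card = 2}.ncard = c ∧
      (c : ℚ) ≤ 1 + ∑ v, ((miss K v : ℚ) - 15) / (15 * ((nbrs K v).card + 1)) ∧
      15 * (c : ℤ) ≤ fnum K 1 - 5 * fnum K 0 + 15 ∧
      (EdgeLinksSpherical K →
        5 * fnum K 0 * (c : ℤ) ≤ (fnum K 0 - 4).choose 3 - 10 * (euler K - 2) ∧
        (2 ≤ euler K → fnum K 0 ≤ 12 → c = 0)) :=
  main' hK

end Pool.Agent.Results.MP_f18604_gt.SimplicialOneHandles
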